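import Pool.Agent.H98.AM.Targets

/-!
# Critical almost Mathieu operator (MP_29bb0a_mp): auxiliary facts for the modules C1 to C8.
helper35
-/

open Polynomial
open scoped ComplexConjugate

noncomputable section

namespace Pool.Agent.H35.AM

open Pool.Agent.H98.AM

theorem ex_add (a b : ℝ) : ex (a + b) = ex a * ex b := by
  unfold ex
  rw [← Complex.exp_add]
  congr 1
  push_cast
  ring

theorem ex_int (k : ℤ) : ex (k : ℝ) = 1 := by
  unfold ex
  have : (2 * Real.pi * (k : ℝ) * Complex.I : ℂ) = k * (2 * Real.pi * Complex.I) := by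
    push_cast
    ring
  rw [show ((2 : ℂ) * (Real.pi : ℂ) * ((k : ℝ) : ℂ) * Complex.I)
    = k * (2 * Real.pi * Complex.I) by push_cast; ring]
  exact Complex.exp_int_mul_two_pi_mul_I k

theorem ex_zero : ex 0 = 1 := by simpa using ex_int 0

theorem norm_ex (t : ℝ) : ‖ex t‖ = 1 := by
  unfold ex
  rw [show ((2 : ℂ) * (Real.pi : ℂ) * (t : ℂ) * Complex.I)
    = ((2 * Real.pi * t : ℝ) : ℂ) * Complex.I by push_cast; ring]
  exact Complex.norm_exp_ofReal_mul_I _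

theorem ex_neg (t : ℝ) : ex (-t) = conj (ex t) := by
  unfold ex
  rw [← Complex.exp_conj]
  congr 1
  simp [map_ofNat (starRingEnd ℂ) 2]

theorem norm_bnd_le (β θ : ℝ) (n : ℤ) : ‖bnd β θ n‖ ≤ 2 := by
  unfold bnd
  calc ‖1 - ex (n * β + θ)‖ ≤ ‖(1 : ℂ)‖ + ‖ex (n * β + θ)‖ := norm_sub_le _ _
    _ = 2 := by rw [norm_ex]; norm_num

/-- the bonds are `s`-periodic -/
theorem bnd_mod (p : ℤ) (s : ℕ) (hs : s ≠ 0) (θ : ℝ) (n : ℤ) :
    bnd (p / s) θ (n % (s : ℤ)) = bnd (p / s) θ n := by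
  unfold bnd
  congr 1
  have h : ((n : ℤ) : ℝ) = ((n % (s : ℤ) : ℤ) : ℝ) + (s : ℝ) * ((n / (s : ℤ) : ℤ) : ℝ) := by
    have := Int.emod_add_mul_ediv n (s : ℤ)
    exact_mod_cast this.symm
  have hs' : (s : ℝ) ≠ 0 := by exact_mod_cast hs
  rw [h]
  have h2 : (((n % (s : ℤ) : ℤ) : ℝ) + (s : ℝ) * ((n / (s : ℤ) : ℤ) : ℝ)) * ((p : ℝ) / s) + θ
      = (((n % (s : ℤ) : ℤ) : ℝ) * ((p : ℝ) / s) + θ) + (((n / (s : ℤ)) * p : ℤ) : ℝ) := by
    push_cast
    field_simp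
    ring
  rw [h2, ex_add (((n % (s : ℤ) : ℤ) : ℝ) * ((p : ℝ) / s) + θ), ex_int, mul_one]

theorem fb_int (p : ℤ) (s : ℕ) [NeZero s] (θ : ℝ) (ζ : ℂ) (n : ℤ) :
    fb p s θ ζ (n : ZMod s) = (if (n : ZMod s) = 0 then ζ else 1) * bnd (p / s) θ n := by
  unfold fb
  congr 1
  rw [ZMod.val_intCast, bnd_mod p s (NeZero.ne s)]

theorem fb_normSq (p : ℤ) (s : ℕ) [NeZero s] (θ : ℝ) (ζ : ℂ) (hζ : ‖ζ‖ = 1) (n : ℤ) :
    Complex.normSq (fb p s θ ζ (n : ZMod s)) = bsq (p / s) θ n := by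
  rw [fb_int, map_mul]
  unfold bsq
  have : Complex.normSq (if (n : ZMod s) = 0 then ζ else 1) = 1 := by
    split_ifs
    · rw [Complex.normSq_eq_norm_sq, hζ]; norm_num
    · simp
  rw [this, one_mul]

theorem fb_fun (p : ℤ) (s : ℕ) [NeZero s] (θ : ℝ) (ζ : ℂ) (hζ : ‖ζ‖ = 1) :
    (fun n : ℤ => Complex.normSq (fb p s θ ζ (n : ZMod s))) = bsq (p / s) θ := by
  funext n
  exact fb_normSq p s θ ζ hζ n

theorem norm_fb_le (p : ℤ) (s : ℕ) [NeZero s] (θ : ℝ) (ζ : ℂ) (hζ : ‖ζ‖ = 1) (n : ZMod s) :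
    ‖fb p s θ ζ n‖ ≤ 2 := by
  unfold fb
  rw [norm_mul]
  have : ‖(if n = 0 then ζ else 1 : ℂ)‖ = 1 := by
    split_ifs
    · exact hζ
    · simp
  rw [this, one_mul]
  exact norm_bnd_le _ _ _

theorem prod_zmod (s : ℕ) [NeZero s] (f : ZMod s → ℂ) :
    ∏ n, f n = ∏ j ∈ Finset.range s, f (j : ZMod s) := by
  obtain ⟨k, rfl⟩ : ∃ k, s = k + 1 := ⟨s - 1, by have := NeZero.ne s; omega⟩
  rw [← Fin.prod_univ_eq_prod_range (fun j => f (j : ZMod (k + 1))) (k + 1)]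
  refine Finset.prod_congr rfl fun i _ => ?_
  congr 1
  exact (ZMod.natCast_zmod_val (n := k + 1) i).symm

theorem prod_fb (hA7 : T_A7) (p : ℤ) (s : ℕ) [NeZero s] (θ : ℝ) (ζ : ℂ)
    (hp : IsCoprime p (s : ℤ)) : ∏ n, fb p s θ ζ n = ζ * (1 - ex (s * θ)) := by
  have hs : 1 ≤ s := Nat.one_le_iff_ne_zero.2 (NeZero.ne s)
  rw [prod_zmod, ← (hA7 p s hp hs).2 θ]
  have h1 : ∀ j ∈ Finset.range s, fb p s θ ζ (j : ZMod s)
      = (if j = 0 then ζ else 1) * bnd (p / s) θ (j : ℤ) := by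
    intro j hj
    have hj' : j < s := Finset.mem_range.1 hj
    have := fb_int p s θ ζ (j : ℤ)
    rw [Int.cast_natCast] at this
    rw [this]
    congr 1
    by_cases h0 : j = 0
    · simp [h0]
    · rw [if_neg h0, if_neg]
      intro h
      rw [ZMod.natCast_eq_zero_iff] at h
      exact h0 (Nat.eq_zero_of_dvd_of_lt h hj')
  rw [Finset.prod_congr rfl h1, Finset.prod_mul_distrib, Finset.prod_ite_eq' (Finset.range s) 0,
    if_pos (Finset.mem_range.2 (by omega))]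

/-- a polynomial whose values are a product of linear factors -/
theorem map_eq_prod {ι : Type} [Fintype ι] (D : ℝ[X]) (ev : ι → ℝ)
    (h : ∀ z : ℂ, ∏ i, (z - ev i) = aeval z D) :
    D.map (algebraMap ℝ ℂ) = ∏ i, (X - C (ev i : ℂ)) := by
  refine Polynomial.funext fun z => ?_
  rw [Polynomial.eval_prod]
  simp only [eval_sub, eval_X, eval_C]
  rw [h z, eval_map_algebraMap]

theorem deriv_at {ι : Type} [Fintype ι] [DecidableEq ι] (D : ℝ[X]) (ev : ι → ℝ)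
    (h : ∀ z : ℂ, ∏ i, (z - ev i) = aeval z D) (i : ι) :
    ∏ j ∈ Finset.univ.erase i, ((ev i : ℂ) - ev j) = ((D.derivative.eval (ev i) : ℝ) : ℂ) := by
  have h1 := congrArg (fun q => (derivative q).eval (ev i : ℂ)) (map_eq_prod D ev h)
  simp only [derivative_map, derivative_prod_finset, eval_finsetSum] at h1
  rw [Finset.sum_eq_single i] at h1
  · rw [eval_mul, eval_prod] at h1
    simp only [eval_sub, eval_X, eval_C, derivative_sub, derivative_X, derivative_C, sub_zero,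
      eval_one, mul_one] at h1
    rw [← h1, eval_map_algebraMap]
    exact (aeval_algebraMap_apply_eq_algebraMap_eval (ev i) (derivative D))
  · intro k _ hk
    rw [eval_mul, eval_prod]
    have : ∏ j ∈ Finset.univ.erase k, eval (ev i : ℂ) (X - C (ev j : ℂ)) = 0 :=
      Finset.prod_eq_zero (Finset.mem_erase.2 ⟨hk.symm, Finset.mem_univ i⟩) (by simp)
    rw [this, zero_mul]
  · intro hi
    exact absurd (Finset.mem_univ i) hi

/-- only the term `i` survives at `z = ev i` -/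
theorem sum_at {ι : Type} [Fintype ι] [DecidableEq ι] (ev : ι → ℝ) (c : ι → ℂ) (i : ι) :
    ∑ k, c k * ∏ j ∈ Finset.univ.erase k, ((ev i : ℂ) - ev j)
      = c i * ∏ j ∈ Finset.univ.erase i, ((ev i : ℂ) - ev j) := by
  refine Finset.sum_eq_single i ?_ ?_
  · intro k _ hk
    rw [Finset.prod_eq_zero (Finset.mem_erase.2 ⟨hk.symm, Finset.mem_univ i⟩) (by simp), mul_zero]
  · intro hi
    exact absurd (Finset.mem_univ i) hi

/-- Parseval for a coordinate -/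
theorem sum_coord (N : ℕ) [NeZero N] {ι : Type} [Fintype ι] (u : OrthonormalBasis ι ℂ (Rg N))
    (m : ZMod N) : ∑ i, ‖u i m‖ ^ 2 = 1 := by
  have h := u.sum_sq_norm_inner_right (EuclideanSpace.single m (1 : ℂ))
  rw [PiLp.norm_single, norm_one, one_pow] at h
  rw [← h]
  refine Finset.sum_congr rfl fun i _ => ?_
  rw [EuclideanSpace.inner_single_right]
  simp

end Pool.Agent.H35.AM
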