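import Pool.Agent.H35.AM.Base

/-!
# Critical almost Mathieu operator (MP_29bb0a_mp), module C1: characteristic polynomial of a fibre
helper35
-/

open Polynomial
open scoped ComplexConjugate

noncomputable section

namespace Pool.Agent.H35.AM

open Pool.Agent.H98.AM

theorem c1 (hA7 : T_A7) (hA8 : T_A8) (hB1 : T_B1) (hB5 : T_B5) : T_C1 := by
  intro p s _ θ ζ ι _ u ev hp hs hζ hu z
  classical
  rw [(hB5 s (fb p s θ ζ) ι u ev hs hu).1 z, hB1 s _ z hs, fb_fun p s θ ζ hζ, prod_fb hA7 p s θ ζ hp]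
  have h0 : (Complex.normSq (fb p s θ ζ 0) : ℂ) = ((bsq (p / s) θ 0 : ℝ) : ℂ) := by
    have := fb_normSq p s θ ζ hζ 0
    rw [Int.cast_zero] at this
    rw [this]
  have hc : ∏ n, conj (fb p s θ ζ n) = conj (ζ * (1 - ex (s * θ))) := by
    rw [← prod_fb hA7 p s θ ζ hp, map_prod]
  rw [hc, h0, ← hA8 p s hp hs θ]
  simp only [map_sub, map_mul, aeval_C, Complex.coe_algebraMap]
  have ht : ((tt s θ ζ : ℝ) : ℂ) = ζ * (1 - ex (s * θ)) + conj (ζ * (1 - ex (s * θ))) := by
    unfold tt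
    rw [Complex.add_conj]
  rw [ht]
  simp only [map_sub, map_mul]
  ring

end Pool.Agent.H35.AM
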