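import Pool.Agent.H35.AM.Base

/-!
# Critical almost Mathieu operator (MP_29bb0a_mp), module C2: diagonal minors of a fibre
helper35
-/

open Polynomial
open scoped ComplexConjugate

noncomputable section

namespace Pool.Agent.H35.AM

open Pool.Agent.H98.AM

theorem c2 (hB2 : T_B2) (hB5 : T_B5) : T_C2 := by
  intro p s _ θ ζ ι _ _ u ev hp hs hζ hu z
  have h2 := hB2 s (fb p s θ ζ) z hs
  have h5 := (hB5 s (fb p s θ ζ) ι u ev hs hu).2 z
  rw [fb_fun p s θ ζ hζ] at h2
  have key : ∀ (i : ι) (m : ZMod s), ((‖u i m‖ ^ 2 : ℝ) : ℂ) = u i m * conj (u i m) := by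
    intro i m
    rw [Complex.mul_conj, Complex.normSq_eq_norm_sq]
  constructor
  · rw [P0, ← h2.1, ← h5 0 0]
    exact Finset.sum_congr rfl fun i _ => by rw [key]
  · rw [P1, ← h2.2, ← h5 (-1) (-1)]
    exact Finset.sum_congr rfl fun i _ => by rw [key]

end Pool.Agent.H35.AM
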