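import Pool.Agent.H35.AM.Base

/-!
# Critical almost Mathieu operator (MP_29bb0a_mp), module C3: product of the two end values
helper35
-/

open Polynomial
open scoped ComplexConjugate

noncomputable section

namespace Pool.Agent.H35.AM

open Pool.Agent.H98.AM

theorem c3 (hA7 : T_A7) (hB3 : T_B3) (hB5 : T_B5) (hC1 : T_C1) : T_C3 := by
  intro p s _ θ ζ ι _ u ev hp hs hζ ht hu i
  classical
  have h5 := (hB5 s (fb p s θ ζ) ι u ev hs hu).2 (ev i) 0 (-1)
  rw [sum_at ev (fun k => u k 0 * conj (u k (-1))) i, hB3 s (fb p s θ ζ) (ev i) hs,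
    fb_fun p s θ ζ hζ] at h5
  have h1 : ∀ z : ℂ, ∏ j, (z - ev j) = aeval z (Dl p s) := by
    intro z
    rw [hC1 p s θ ζ ι u ev hp hs hζ hu z, ht]
    simp
  rw [deriv_at (Dl p s) ev h1 i] at h5
  set a := fb p s θ ζ with ha
  set P : ℝ := (cont (bsq (p / s) θ) 1 (s - 2)).eval (ev i) with hP
  have hP' : aeval (ev i : ℂ) (cont (bsq (p / s) θ) 1 (s - 2)) = (P : ℂ) :=
    aeval_algebraMap_apply_eq_algebraMap_eval (ev i) _
  rw [hP'] at h5
  -- the product of all bonds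
  have hw : conj (a 0) * ∏ j ∈ Finset.range (s - 1), conj (a ((j + 1 : ℕ) : ZMod s))
      = conj (ζ * (1 - ex (s * θ))) := by
    rw [← prod_fb hA7 p s θ ζ hp, prod_zmod, ← ha, map_prod]
    obtain ⟨k, rfl⟩ : ∃ k, s = k + 1 := ⟨s - 1, by omega⟩
    rw [Finset.prod_range_succ', mul_comm]
    simp
  have hre : (ζ * (1 - ex (s * θ))).re = 0 := by
    have : tt s θ ζ = 2 * (ζ * (1 - ex (s * θ))).re := rfl
    rw [ht] at this
    linarith
  have h6 : conj (a 0) * (u i 0 * conj (u i (-1)) * ((Dl p s).derivative.eval (ev i) : ℝ))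
      = ((Complex.normSq (a 0) * P : ℝ) : ℂ) + conj (ζ * (1 - ex (s * θ))) := by
    rw [h5, mul_add, hw, ← mul_assoc, mul_comm (conj (a 0)) (a 0), Complex.mul_conj]
    push_cast
    ring
  have h7 : ‖(1 : ℂ) - ex (s * θ)‖ ≤ ‖conj (a 0) * (u i 0 * conj (u i (-1)) *
      ((Dl p s).derivative.eval (ev i) : ℝ))‖ := by
    rw [h6]
    refine le_trans ?_ (Complex.abs_im_le_norm _)
    have him : (((Complex.normSq (a 0) * P : ℝ) : ℂ) + conj (ζ * (1 - ex (s * θ)))).im
        = -(ζ * (1 - ex (s * θ))).im := by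
      rw [Complex.add_im, Complex.ofReal_im, Complex.conj_im, zero_add]
    rw [him, abs_neg]
    have hn : ‖ζ * (1 - ex (s * θ))‖ = |(ζ * (1 - ex (s * θ))).im| :=
      (Complex.abs_im_eq_norm.2 hre).symm
    rw [← hn, norm_mul, hζ, one_mul]
  refine h7.trans (le_of_eq ?_)
  have ha0 : ‖a 0‖ = ‖bnd (p / s) θ 0‖ := by
    rw [ha]
    have := fb_int p s θ ζ 0
    rw [Int.cast_zero] at this
    rw [this, norm_mul]
    simp [hζ]
  rw [norm_mul, norm_mul, norm_mul, RCLike.norm_conj, RCLike.norm_conj, ha0, Complex.norm_real,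
    Real.norm_eq_abs]
  ring

end Pool.Agent.H35.AM
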