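import Pool.Agent.H35.AM.Base

/-!
# Critical almost Mathieu operator (MP_29bb0a_mp), module C4: end weights of the open chain
helper35
-/

open Polynomial
open scoped ComplexConjugate

noncomputable section

namespace Pool.Agent.H35.AM

open Pool.Agent.H98.AM

theorem bsq_refl (p : ℤ) (s : ℕ) (hs : s ≠ 0) (n : ℤ) :
    bsq (p / s) 0 ((s : ℤ) - n) = bsq (p / s) 0 n := by
  have h1 : bnd (p / s) 0 ((s : ℤ) - n) = conj (bnd (p / s) 0 n) := by
    rw [← bnd_mod p s hs 0 ((s : ℤ) - n), show ((s : ℤ) - n) % (s : ℤ) = (-n) % (s : ℤ) by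
      rw [show (s : ℤ) - n = -n + (s : ℤ) * 1 by ring, Int.add_mul_emod_self_left], bnd_mod p s hs]
    unfold bnd
    rw [map_sub, map_one, ← ex_neg]
    congr 2
    push_cast
    ring
  unfold bsq
  rw [h1, Complex.normSq_conj]

theorem P0_eq_P1 (hA2 : T_A2) (hA3 : T_A3) (p : ℤ) (s : ℕ) (hs : 3 ≤ s) :
    P0 p s 0 = P1 p s 0 := by
  unfold P0 P1
  rw [← hA3 (bsq (p / s) 0) 1 (s - 1)]
  refine hA2 _ _ _ _ _ fun j hj => ?_
  have h1 : ((s - 1 : ℕ) : ℤ) = (s : ℤ) - 1 := by omega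
  rw [h1]
  have h2 : (1 : ℤ) - ((1 : ℤ) - 1 - ((s : ℤ) - 1) + j + 1) = (s : ℤ) - (0 + (j : ℤ) + 1) := by ring
  rw [h2, bsq_refl p s (by omega)]

theorem c4 (hA2 : T_A2) (hA3 : T_A3) (hA4 : T_A4) (hA7 : T_A7) (hC1 : T_C1) (hC2 : T_C2) :
    T_C4 := by
  intro p s _ ι _ u ev hp hs hu i
  classical
  have ht : tt s 0 1 = 0 := by
    unfold tt
    simp [ex_zero]
  have h1 : ∀ z : ℂ, ∏ j, (z - ev j) = aeval z (Dl p s) := by
    intro z
    rw [hC1 p s 0 1 ι u ev hp hs (by simp) hu z, ht]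
    simp
  have hd := deriv_at (Dl p s) ev h1 i
  have h2 := hC2 p s 0 1 ι u ev hp hs (by simp) hu (ev i)
  rw [sum_at ev (fun k => ((‖u k 0‖ ^ 2 : ℝ) : ℂ)) i,
    sum_at ev (fun k => ((‖u k (-1)‖ ^ 2 : ℝ) : ℂ)) i, hd] at h2
  set d : ℝ := (Dl p s).derivative.eval (ev i) with hdd
  have e0 : ‖u i 0‖ ^ 2 * d = (P0 p s 0).eval (ev i) := by
    have := h2.1
    rw [show aeval (ev i : ℂ) (P0 p s 0) = (((P0 p s 0).eval (ev i) : ℝ) : ℂ) from
      aeval_algebraMap_apply_eq_algebraMap_eval (ev i) _] at this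
    exact_mod_cast this
  have e1 : ‖u i (-1)‖ ^ 2 * d = (P1 p s 0).eval (ev i) := by
    have := h2.2
    rw [show aeval (ev i : ℂ) (P1 p s 0) = (((P1 p s 0).eval (ev i) : ℝ) : ℂ) from
      aeval_algebraMap_apply_eq_algebraMap_eval (ev i) _] at this
    exact_mod_cast this
  -- the root
  have hroot : (Dl p s).eval (ev i) = 0 := by
    have h3 : aeval (ev i : ℂ) (Dl p s) = 0 := by
      rw [← h1]
      exact Finset.prod_eq_zero (Finset.mem_univ i) (by simp)
    rw [show aeval (ev i : ℂ) (Dl p s) = (((Dl p s).eval (ev i) : ℝ) : ℂ) from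
      aeval_algebraMap_apply_eq_algebraMap_eval (ev i) _] at h3
    exact_mod_cast h3
  have hprod : (P0 p s 0).eval (ev i) * (P1 p s 0).eval (ev i) = (s : ℝ) ^ 2 := by
    have h4 := congrArg (eval (ev i)) (hA4 (bsq (p / s) 0) 0 (s - 2))
    simp only [eval_sub, eval_mul, eval_neg, eval_C] at h4
    rw [show s - 2 + 2 = s by omega, show s - 2 + 1 = s - 1 by omega, zero_add] at h4
    rw [show cont (bsq (p / s) 0) 0 s = Dl p s from rfl, hroot] at h4
    rw [show cont (bsq (p / s) 0) 0 (s - 1) = P1 p s 0 from rfl,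
      show cont (bsq (p / s) 0) 1 (s - 1) = P0 p s 0 from rfl] at h4
    have h5 := (hA7 p s hp (by omega)).1
    have h6 : ∏ j ∈ Finset.range (s - 1), bsq (p / s) 0 (0 + (j : ℤ) + 1) = (s : ℝ) ^ 2 := by
      rw [← h5]
      exact Finset.prod_congr rfl fun j _ => by rw [zero_add]
    rw [h6] at h4
    linarith
  rw [← P0_eq_P1 hA2 hA3 p s hs] at e1 hprod
  have hs' : (s : ℝ) ≠ 0 := by positivity
  have habs : |(P0 p s 0).eval (ev i)| = s := by
    have : |(P0 p s 0).eval (ev i)| ^ 2 = (s : ℝ) ^ 2 := by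
      rw [sq_abs, sq, hprod]
    exact (sq_eq_sq₀ (abs_nonneg _) (by positivity)).1 this
  have hd0 : |d| ≠ 0 := by
    intro h
    rw [abs_eq_zero] at h
    rw [h, mul_zero] at e0
    rw [← e0, abs_zero] at habs
    exact hs' habs.symm
  constructor
  · have h7 := congrArg abs e0
    rw [abs_mul, habs, abs_of_nonneg (sq_nonneg _)] at h7
    unfold om
    rw [← hdd, ← h7]
    field_simp
  · have h7 := congrArg abs e1
    rw [abs_mul, habs, abs_of_nonneg (sq_nonneg _)] at h7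
    unfold om
    rw [← hdd, ← h7]
    field_simp

end Pool.Agent.H35.AM
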