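import Pool.Agent.H35.AM.Base

/-!
# Critical almost Mathieu operator (MP_29bb0a_mp), module C5: the discriminant
helper35
-/

open Polynomial
open scoped ComplexConjugate

noncomputable section

namespace Pool.Agent.H35.AM

open Pool.Agent.H98.AM

theorem ex_half : ex (1 / 2) = -1 := by
  unfold ex
  rw [show ((2 : ℂ) * (Real.pi : ℂ) * ((1 / 2 : ℝ) : ℂ) * Complex.I) = Real.pi * Complex.I by
    push_cast; ring]
  exact Complex.exp_pi_mul_I

theorem c5 (hA5 : T_A5) (hB4 : T_B4) (hC1 : T_C1) : T_C5 := by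
  intro p s hp hs
  haveI : NeZero s := ⟨by omega⟩
  refine ⟨(hA5 _ _ _).1, (hA5 _ _ _).2, fun t ht => ?_⟩
  set ζ : ℂ := ⟨t / 4, Real.sqrt (1 - (t / 4) ^ 2)⟩ with hζ
  have ht4 : (t / 4) ^ 2 ≤ 1 := by
    rw [div_pow, div_le_one (by norm_num)]
    nlinarith [abs_le.1 ht, sq_abs t, abs_nonneg t]
  have hn : ‖ζ‖ = 1 := by
    have : ‖ζ‖ ^ 2 = 1 := by
      rw [← Complex.normSq_eq_norm_sq, Complex.normSq_apply, hζ]
      simp only
      rw [Real.mul_self_sqrt (by linarith)]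
      ring
    exact (pow_eq_one_iff_of_nonneg (norm_nonneg ζ) two_ne_zero).1 this
  obtain ⟨u, ev, hu⟩ := (hB4 s (fb p s (1 / (2 * s)) ζ)).1
  refine ⟨ev, fun z => ?_⟩
  rw [hC1 p s (1 / (2 * s)) ζ (Fin s) u ev hp hs hn hu z]
  have hs' : (s : ℝ) ≠ 0 := by positivity
  have h1 : tt s (1 / (2 * s)) ζ = t := by
    unfold tt
    rw [show (s : ℝ) * (1 / (2 * s)) = 1 / 2 by field_simp, ex_half]
    rw [show (1 : ℂ) - -1 = ((2 : ℝ) : ℂ) by norm_num, Complex.re_mul_ofReal]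
    rw [hζ]
    ring
  rw [h1]

end Pool.Agent.H35.AM
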