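import Pool.Agent.H35.AM.Base

/-!
# Critical almost Mathieu operator (MP_29bb0a_mp), module C6: the roots and their weights
helper35
-/

open Polynomial
open scoped ComplexConjugate

noncomputable section

namespace Pool.Agent.H35.AM

open Pool.Agent.H98.AM

theorem root_iff {ι : Type} [Fintype ι] (D : ℝ[X]) (ev : ι → ℝ)
    (h : ∀ z : ℂ, ∏ i, (z - ev i) = aeval z D) (e : ℝ) : D.eval e = 0 ↔ ∃ i, ev i = e := by
  have h1 : aeval (e : ℂ) D = ((D.eval e : ℝ) : ℂ) :=
    aeval_algebraMap_apply_eq_algebraMap_eval e _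
  rw [← Complex.ofReal_eq_zero, ← h1, ← h, Finset.prod_eq_zero_iff]
  constructor
  · rintro ⟨i, -, hi⟩
    refine ⟨i, ?_⟩
    rw [sub_eq_zero] at hi
    exact_mod_cast hi.symm
  · rintro ⟨i, rfl⟩
    exact ⟨i, Finset.mem_univ i, by simp⟩

/-- simple roots: the eigenvalues enumerate the roots -/
theorem ev_bij {ι : Type} [Fintype ι] (D : ℝ[X]) (ev : ι → ℝ)
    (h : ∀ z : ℂ, ∏ i, (z - ev i) = aeval z D) (hD : D.Monic)
    (hs : ∀ e, D.eval e = 0 → D.derivative.eval e ≠ 0) :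
    Function.Injective ev ∧ ∀ e, e ∈ rts D ↔ ∃ i, ev i = e := by
  classical
  constructor
  · intro i j hij
    by_contra hne
    refine hs (ev i) ((root_iff D ev h _).2 ⟨i, rfl⟩) ?_
    have h1 := deriv_at D ev h i
    rw [Finset.prod_eq_zero (Finset.mem_erase.2 ⟨fun hh => hne hh.symm, Finset.mem_univ j⟩)
      (by rw [hij]; simp)] at h1
    exact_mod_cast h1.symm
  · intro e
    unfold rts
    rw [Multiset.mem_toFinset, mem_roots hD.ne_zero]
    exact root_iff D ev h e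

theorem sum_rts {ι : Type} [Fintype ι] (D : ℝ[X]) (ev : ι → ℝ)
    (hinj : Function.Injective ev) (hr : ∀ e, e ∈ rts D ↔ ∃ i, ev i = e) {M : Type}
    [AddCommMonoid M] (f : ℝ → M) : ∑ e ∈ rts D, f e = ∑ i, f (ev i) := by
  classical
  have h1 : rts D = Finset.univ.image ev := by
    ext e
    rw [hr e]
    simp
  rw [h1, Finset.sum_image fun i _ j _ hij => hinj hij]

theorem c6 (hB4 : T_B4) (hC1 : T_C1) (hC4 : T_C4) (hC5 : T_C5) (hD1 : T_D1) : T_C6 := by
  intro p s hp hs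
  haveI : NeZero s := ⟨by omega⟩
  have hdisc := hC5 p s hp hs
  have hsimple := hD1 s (Dl p s) hdisc (by omega)
  obtain ⟨u, ev, hu⟩ := (hB4 s (fb p s 0 1)).1
  have hu' : IsEB (Fi p s 0 1) u ev := hu
  have ht : tt s 0 1 = 0 := by
    unfold tt
    simp [ex_zero]
  have h1 : ∀ z : ℂ, ∏ j, (z - ev j) = aeval z (Dl p s) := by
    intro z
    rw [hC1 p s 0 1 (Fin s) u ev hp hs (by simp) hu z, ht]
    simp
  obtain ⟨hinj, hr⟩ := ev_bij (Dl p s) ev h1 hdisc.mon hsimple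
  have hc4 := hC4 p s (Fin s) u ev hp hs hu'
  refine ⟨?_, ?_, ?_, ?_⟩
  · have := sum_rts (Dl p s) ev hinj hr (fun _ => (1 : ℕ))
    simpa using this
  · intro e he
    obtain ⟨i, rfl⟩ := (hr e).1 he
    have := ((hB4 s (fb p s 0 1)).2 2 (norm_fb_le p s 0 1 (by simp))).2 (Fin s) u ev hu i
    linarith
  · rw [sum_rts (Dl p s) ev hinj hr]
    have h2 := sum_coord s u 0
    have hs' : (s : ℝ) ≠ 0 := by positivity
    have h3 : (s : ℝ) * ∑ i, om (Dl p s) (ev i) = 1 := by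
      rw [Finset.mul_sum, ← h2]
      exact Finset.sum_congr rfl fun i _ => ((hc4 i).1).symm
    field_simp
    linarith
  · intro e he
    obtain ⟨i, rfl⟩ := (hr e).1 he
    unfold om
    exact div_pos one_pos (abs_pos.2 (hsimple _ ((root_iff _ ev h1 _).2 ⟨i, rfl⟩)))

end Pool.Agent.H35.AM
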