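import Pool.Agent.H35.AM.C6

/-!
# Critical almost Mathieu operator (MP_29bb0a_mp), module C7: the weights of the roots
helper35
-/

open Polynomial
open scoped ComplexConjugate

noncomputable section

namespace Pool.Agent.H35.AM

open Pool.Agent.H98.AM

theorem exists_tt_zero (s : ℕ) (θ : ℝ) : ∃ ζ : ℂ, ‖ζ‖ = 1 ∧ tt s θ ζ = 0 := by
  by_cases hw : (1 : ℂ) - ex (s * θ) = 0
  · exact ⟨1, by simp, by unfold tt; rw [hw]; simp⟩
  · set w : ℂ := 1 - ex (s * θ) with hwdef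
    have hn : ‖w‖ ≠ 0 := norm_ne_zero_iff.2 hw
    refine ⟨Complex.I * conj w / (‖w‖ : ℝ), ?_, ?_⟩
    · rw [norm_div, norm_mul, Complex.norm_I, one_mul, RCLike.norm_conj, Complex.norm_real,
        norm_norm, div_self hn]
    · unfold tt
      rw [← hwdef]
      have : Complex.I * conj w / (‖w‖ : ℝ) * w = ((‖w‖ : ℝ) : ℂ) * Complex.I := by
        have h1 : conj w * w = ((‖w‖ ^ 2 : ℝ) : ℂ) := by
          rw [mul_comm, Complex.mul_conj, Complex.normSq_eq_norm_sq]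
        have hn' : ((‖w‖ : ℝ) : ℂ) ≠ 0 := by exact_mod_cast hn
        rw [div_mul_eq_mul_div, mul_assoc, h1]
        field_simp
        push_cast
        ring
      rw [this, Complex.re_ofReal_mul, Complex.I_re]
      ring

/-- the data of a fibre with `tt = 0` -/
theorem fibre_zero (hB4 : T_B4) (hC1 : T_C1) (hC2 : T_C2) (hC5 : T_C5) (hD1 : T_D1)
    (p : ℤ) (s : ℕ) [NeZero s] (hp : IsCoprime p (s : ℤ)) (hs : 3 ≤ s) (θ : ℝ) :
    ∃ (ev : Fin s → ℝ) (c0 c1 : Fin s → ℝ), Function.Injective ev ∧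
      (∀ e, e ∈ rts (Dl p s) ↔ ∃ i, ev i = e) ∧
      (∀ z : ℂ, ∏ j, (z - ev j) = aeval z (Dl p s)) ∧
      (∀ i, 0 ≤ c0 i ∧ 0 ≤ c1 i) ∧ (∑ i, c0 i = 1) ∧ (∑ i, c1 i = 1) ∧
      (∀ i, (P0 p s θ).eval (ev i) / (Dl p s).derivative.eval (ev i) = c0 i) ∧
      (∀ i, (P1 p s θ).eval (ev i) / (Dl p s).derivative.eval (ev i) = c1 i) ∧
      (∀ z : ℂ, ∑ i, ((c0 i : ℝ) : ℂ) * ∏ j ∈ Finset.univ.erase i, (z - ev j)
        = aeval z (P0 p s θ)) ∧
      (∀ z : ℂ, ∑ i, ((c1 i : ℝ) : ℂ) * ∏ j ∈ Finset.univ.erase i, (z - ev j)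
        = aeval z (P1 p s θ)) := by
  have hdisc := hC5 p s hp hs
  have hsimple := hD1 s (Dl p s) hdisc (by omega)
  obtain ⟨ζ, hζ, ht⟩ := exists_tt_zero s θ
  obtain ⟨u, ev, hu⟩ := (hB4 s (fb p s θ ζ)).1
  have h1 : ∀ z : ℂ, ∏ j, (z - ev j) = aeval z (Dl p s) := by
    intro z
    rw [hC1 p s θ ζ (Fin s) u ev hp hs hζ hu z, ht]
    simp
  obtain ⟨hinj, hr⟩ := ev_bij (Dl p s) ev h1 hdisc.mon hsimple
  have h2 := hC2 p s θ ζ (Fin s) u ev hp hs hζ hu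
  have hd0 : ∀ i, (Dl p s).derivative.eval (ev i) ≠ 0 := fun i =>
    hsimple _ ((root_iff _ ev h1 _).2 ⟨i, rfl⟩)
  refine ⟨ev, fun i => ‖u i 0‖ ^ 2, fun i => ‖u i (-1)‖ ^ 2, hinj, hr, h1,
    fun i => ⟨sq_nonneg _, sq_nonneg _⟩, sum_coord s u 0, sum_coord s u (-1), ?_, ?_,
    fun z => (h2 z).1, fun z => (h2 z).2⟩
  · intro i
    have h3 := (h2 (ev i)).1
    rw [sum_at ev (fun k => ((‖u k 0‖ ^ 2 : ℝ) : ℂ)) i, deriv_at (Dl p s) ev h1 i,
      show aeval (ev i : ℂ) (P0 p s θ) = (((P0 p s θ).eval (ev i) : ℝ) : ℂ) from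
      aeval_algebraMap_apply_eq_algebraMap_eval (ev i) _] at h3
    have h4 : ‖u i 0‖ ^ 2 * (Dl p s).derivative.eval (ev i) = (P0 p s θ).eval (ev i) := by
      exact_mod_cast h3
    rw [← h4, mul_div_assoc, div_self (hd0 i), mul_one]
  · intro i
    have h3 := (h2 (ev i)).2
    rw [sum_at ev (fun k => ((‖u k (-1)‖ ^ 2 : ℝ) : ℂ)) i, deriv_at (Dl p s) ev h1 i,
      show aeval (ev i : ℂ) (P1 p s θ) = (((P1 p s θ).eval (ev i) : ℝ) : ℂ) from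
      aeval_algebraMap_apply_eq_algebraMap_eval (ev i) _] at h3
    have h4 : ‖u i (-1)‖ ^ 2 * (Dl p s).derivative.eval (ev i) = (P1 p s θ).eval (ev i) := by
      exact_mod_cast h3
    rw [← h4, mul_div_assoc, div_self (hd0 i), mul_one]

theorem sub_ne (z : ℂ) (hz : z.im ≠ 0) (e : ℝ) : z - e ≠ 0 := by
  intro h
  apply hz
  rw [sub_eq_zero] at h
  rw [h, Complex.ofReal_im]

theorem sum_div_prod {ι : Type} [Fintype ι] [DecidableEq ι] (ev : ι → ℝ) (c : ι → ℂ) (z : ℂ)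
    (hz : z.im ≠ 0) :
    (∑ i, c i * ∏ j ∈ Finset.univ.erase i, (z - ev j)) / ∏ j, (z - ev j)
      = ∑ i, c i / (z - ev i) := by
  rw [Finset.sum_div]
  refine Finset.sum_congr rfl fun i _ => ?_
  rw [← Finset.mul_prod_erase Finset.univ (fun j => z - (ev j : ℂ)) (Finset.mem_univ i)]
  have h1 : z - (ev i : ℂ) ≠ 0 := sub_ne z hz _
  have h2 : ∏ j ∈ Finset.univ.erase i, (z - (ev j : ℂ)) ≠ 0 :=
    Finset.prod_ne_zero_iff.2 fun j _ => sub_ne z hz _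
  field_simp

theorem c7 (hB4 : T_B4) (hC1 : T_C1) (hC2 : T_C2) (hC5 : T_C5) (hD1 : T_D1) : T_C7 := by
  intro p s hp hs θ
  haveI : NeZero s := ⟨by omega⟩
  obtain ⟨ev, c0, c1, hinj, hr, h1, hc, hs0, hs1, hq0, hq1, hp0, hp1⟩ :=
    fibre_zero hB4 hC1 hC2 hC5 hD1 p s hp hs θ
  refine ⟨?_, ?_, ?_⟩
  · intro e he
    obtain ⟨i, rfl⟩ := (hr e).1 he
    rw [hq0, hq1]
    exact hc i
  · rw [sum_rts (Dl p s) ev hinj hr]
    have : ∀ i, hw p s θ (ev i) = c0 i + c1 i := by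
      intro i
      unfold hw
      rw [add_div, hq0, hq1]
    rw [Finset.sum_congr rfl fun i _ => this i, Finset.sum_add_distrib, hs0, hs1]
    norm_num
  · intro z hz
    refine ⟨?_, ?_, ?_⟩
    · rw [← h1]
      exact Finset.prod_ne_zero_iff.2 fun j _ => sub_ne z hz _
    · rw [sum_rts (Dl p s) ev hinj hr, ← h1, ← hp0, sum_div_prod ev _ z hz]
      exact Finset.sum_congr rfl fun i _ => by rw [hq0]
    · rw [sum_rts (Dl p s) ev hinj hr, ← h1, ← hp1, sum_div_prod ev _ z hz]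
      exact Finset.sum_congr rfl fun i _ => by rw [hq1]

end Pool.Agent.H35.AM
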