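import Pool.Agent.H35.AM.C7

/-!
# Critical almost Mathieu operator (MP_29bb0a_mp), module C8: local density of states of a fibre
helper35
-/

open Polynomial
open scoped ComplexConjugate

noncomputable section

namespace Pool.Agent.H35.AM

open Pool.Agent.H98.AM

theorem near_le {ι : Type} [Fintype ι] (ev c : ι → ℝ) (hc : ∀ i, 0 ≤ c i) (E d : ℝ) (hd : 0 < d) :
    ∑ i ∈ Finset.univ.filter (fun i => |ev i - E| ≤ d), c i
      ≤ 2 * d * ‖∑ i, ((c i : ℝ) : ℂ) / ((E : ℂ) + d * Complex.I - ev i)‖ := by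
  have him : ∀ i, (((c i : ℝ) : ℂ) / ((E : ℂ) + d * Complex.I - ev i)).im
      = -(c i * (d / ((E - ev i) ^ 2 + d ^ 2))) := by
    intro i
    rw [div_eq_mul_inv, Complex.im_ofReal_mul, Complex.inv_im]
    have h1 : ((E : ℂ) + d * Complex.I - ev i).im = d := by simp
    have h2 : Complex.normSq ((E : ℂ) + d * Complex.I - ev i) = (E - ev i) ^ 2 + d ^ 2 := by
      rw [Complex.normSq_apply, h1]
      have : ((E : ℂ) + d * Complex.I - ev i).re = E - ev i := by simp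
      rw [this]
      ring
    rw [h1, h2]
    ring
  have h1 : ∑ i, c i * (d / ((E - ev i) ^ 2 + d ^ 2))
      ≤ ‖∑ i, ((c i : ℝ) : ℂ) / ((E : ℂ) + d * Complex.I - ev i)‖ := by
    refine le_trans ?_ (Complex.abs_im_le_norm _)
    rw [Complex.im_sum, Finset.sum_congr rfl fun i _ => him i, Finset.sum_neg_distrib, abs_neg]
    exact le_abs_self _
  have h2 : ∑ i ∈ Finset.univ.filter (fun i => |ev i - E| ≤ d), c i * (1 / (2 * d))
      ≤ ∑ i, c i * (d / ((E - ev i) ^ 2 + d ^ 2)) := by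
    refine le_trans (Finset.sum_le_sum fun i hi => ?_)
      (Finset.sum_le_sum_of_subset_of_nonneg (Finset.filter_subset _ _) fun i _ _ => ?_)
    · refine mul_le_mul_of_nonneg_left ?_ (hc i)
      have h3 := (Finset.mem_filter.1 hi).2
      have h4 : (E - ev i) ^ 2 ≤ d ^ 2 := by
        rw [← sq_abs (E - ev i), abs_sub_comm]
        exact pow_le_pow_left₀ (abs_nonneg _) h3 2
      rw [div_le_div_iff₀ (by positivity) (by positivity)]
      nlinarith
    · exact mul_nonneg (hc i) (by positivity)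
  rw [← Finset.sum_mul] at h2
  have h3 := h2.trans h1
  rw [mul_one_div, div_le_iff₀ (by positivity)] at h3
  linarith

/-- from the fibre to the roots -/
theorem fibre_to_roots {ι : Type} [Fintype ι] [DecidableEq ι] (D P : ℝ[X]) (ev c : ι → ℝ) (t : ℝ)
    (z : ℂ) (hz : z.im ≠ 0) (R : ℝ)
    (h1 : ∏ i, (z - ev i) = aeval z D - t)
    (h2 : ∑ i, ((c i : ℝ) : ℂ) * ∏ j ∈ Finset.univ.erase i, (z - ev j) = aeval z P)
    (hD : aeval z D ≠ 0) (hR : ‖aeval z D‖ ≤ R * ‖aeval z D - t‖) (g : ℝ → ℝ)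
    (hg : ∀ e ∈ rts D, 0 ≤ g e)
    (h3 : aeval z P / aeval z D = ∑ e ∈ rts D, ((g e : ℝ) : ℂ) / (z - e)) :
    ‖∑ i, ((c i : ℝ) : ℂ) / (z - ev i)‖ ≤ R * ∑ e ∈ rts D, g e / ‖z - e‖ := by
  rw [← sum_div_prod ev (fun i => ((c i : ℝ) : ℂ)) z hz, h2, h1, norm_div]
  have hDt : aeval z D - (t : ℂ) ≠ 0 := by
    rw [← h1]
    exact Finset.prod_ne_zero_iff.2 fun j _ => sub_ne z hz _
  have hn1 : 0 < ‖aeval z D‖ := norm_pos_iff.2 hD
  have hn2 : 0 < ‖aeval z D - (t : ℂ)‖ := norm_pos_iff.2 hDt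
  have hR0 : 0 ≤ R := by
    by_contra hneg
    push Not at hneg
    nlinarith
  have h4 : ‖aeval z P‖ / ‖aeval z D - (t : ℂ)‖ ≤ R * (‖aeval z P‖ / ‖aeval z D‖) := by
    rw [← mul_div_assoc, div_le_div_iff₀ hn2 hn1]
    calc ‖aeval z P‖ * ‖aeval z D‖ ≤ ‖aeval z P‖ * (R * ‖aeval z D - (t : ℂ)‖) :=
          mul_le_mul_of_nonneg_left hR (norm_nonneg _)
      _ = R * ‖aeval z P‖ * ‖aeval z D - (t : ℂ)‖ := by ring
  refine h4.trans (mul_le_mul_of_nonneg_left ?_ hR0)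
  rw [← norm_div, h3]
  refine (norm_sum_le _ _).trans (Finset.sum_le_sum fun e he => ?_)
  rw [norm_div, Complex.norm_real, Real.norm_eq_abs, abs_of_nonneg (hg e he)]

theorem c8 (hC1 : T_C1) (hC2 : T_C2) (hC7 : T_C7) : T_C8 := by
  intro p s _ θ ζ ι _ u ev hp hs hζ hu E d R hd hR hyp
  classical
  set z : ℂ := (E : ℂ) + d * Complex.I with hzdef
  have hz : z.im ≠ 0 := by
    rw [hzdef]
    simpa using hd.ne'
  have h1 := hC1 p s θ ζ ι u ev hp hs hζ hu z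
  have h2 := hC2 p s θ ζ ι u ev hp hs hζ hu z
  obtain ⟨h7a, -, h7c⟩ := hC7 p s hp hs θ
  obtain ⟨hD, hP0, hP1⟩ := h7c z hz
  have ht : |tt s θ ζ| ≤ 2 * ‖1 - ex (s * θ)‖ := by
    unfold tt
    rw [abs_mul, abs_of_nonneg (by norm_num : (0 : ℝ) ≤ 2)]
    refine mul_le_mul_of_nonneg_left ((Complex.abs_re_le_norm _).trans ?_) (by norm_num)
    rw [norm_mul, hζ, one_mul]
  have hRt := hyp _ ht
  have e0 := fibre_to_roots (Dl p s) (P0 p s θ) ev (fun i => ‖u i 0‖ ^ 2) (tt s θ ζ) z hz R h1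
    h2.1 hD hRt (fun e => (P0 p s θ).eval e / (Dl p s).derivative.eval e)
    (fun e he => (h7a e he).1) hP0
  have e1 := fibre_to_roots (Dl p s) (P1 p s θ) ev (fun i => ‖u i (-1)‖ ^ 2) (tt s θ ζ) z hz R h1
    h2.2 hD hRt (fun e => (P1 p s θ).eval e / (Dl p s).derivative.eval e)
    (fun e he => (h7a e he).2) hP1
  have n0 := near_le ev (fun i => ‖u i 0‖ ^ 2) (fun i => sq_nonneg _) E d hd
  have n1 := near_le ev (fun i => ‖u i (-1)‖ ^ 2) (fun i => sq_nonneg _) E d hd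
  rw [Finset.sum_add_distrib]
  have hsum : ∑ e ∈ rts (Dl p s), hw p s θ e / ‖z - e‖
      = ∑ e ∈ rts (Dl p s), (P0 p s θ).eval e / (Dl p s).derivative.eval e / ‖z - e‖
        + ∑ e ∈ rts (Dl p s), (P1 p s θ).eval e / (Dl p s).derivative.eval e / ‖z - e‖ := by
    rw [← Finset.sum_add_distrib]
    refine Finset.sum_congr rfl fun e _ => ?_
    unfold hw
    rw [add_div, add_div]
  rw [hsum]
  have f0 := n0.trans (mul_le_mul_of_nonneg_left e0 (by positivity : (0 : ℝ) ≤ 2 * d))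
  have f1 := n1.trans (mul_le_mul_of_nonneg_left e1 (by positivity : (0 : ℝ) ≤ 2 * d))
  calc _ ≤ _ := add_le_add f0 f1
    _ = _ := by ring

end Pool.Agent.H35.AM
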